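import Pool.Agent.Lib.MP_fa837f_gt.P2.Iface

/-!
Project P2, row WA: the algebra of `β`.
-/

set_option autoImplicit false

open Matrix

namespace Pool.Agent.Lib.MP_fa837f_gt.P2.H57

open Pool.Agent.Lib.MP_fa837f_gt.P2

variable {n k : ℕ}

theorem RR_mulVec (m : Fin n → Fin k → ℝ) (r : Fin n → ℝ) (x : Fin k → ℝ) (a : Fin k) :
    (RR m r *ᵥ x) a = ∑ i, r i * (m i ⬝ᵥ x) * m i a := by
  unfold RR
  rw [Matrix.sum_mulVec, Finset.sum_apply]
  refine Finset.sum_congr rfl fun i _ => ?_
  simp only [Matrix.mulVec, dotProduct, Matrix.smul_apply, smul_eq_mul, vecMulVec_apply,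
    Finset.mul_sum, Finset.sum_mul]
  refine Finset.sum_congr rfl fun j _ => ?_
  ring

theorem dot_RR (m : Fin n → Fin k → ℝ) (r : Fin n → ℝ) (x y : Fin k → ℝ) :
    y ⬝ᵥ (RR m r *ᵥ x) = ∑ i, r i * (m i ⬝ᵥ x) * (m i ⬝ᵥ y) := by
  simp only [dotProduct, RR_mulVec, Finset.mul_sum]
  rw [Finset.sum_comm]
  refine Finset.sum_congr rfl fun i _ => Finset.sum_congr rfl fun a _ => ?_
  ring

theorem RR_symm (m : Fin n → Fin k → ℝ) (r : Fin n → ℝ) (a b : Fin k) :
    RR m r a b = RR m r b a := by
  unfold RR
  simp only [Matrix.sum_apply, Matrix.smul_apply, vecMulVec_apply, smul_eq_mul]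
  refine Finset.sum_congr rfl fun i _ => ?_
  ring

theorem RR_posDef (m : Fin n → Fin k → ℝ) (r : Fin n → ℝ) (hm : Spans m) (hr : ∀ i, 0 < r i) :
    (RR m r).PosDef := by
  refine Matrix.PosDef.of_dotProduct_mulVec_pos ?_ fun x hx => ?_
  · ext a b
    simp only [conjTranspose_apply, star_trivial]
    exact RR_symm m r b a
  · rw [star_trivial, dot_RR]
    have h0 : ∃ i, m i ⬝ᵥ x ≠ 0 := by
      by_contra h
      push Not at h
      exact hx (hm x h)
    obtain ⟨i, hi⟩ := h0
    refine Finset.sum_pos' (fun j _ => ?_) ⟨i, Finset.mem_univ _, ?_⟩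
    · have := mul_self_nonneg (m j ⬝ᵥ x)
      have h1 := hr j
      nlinarith [mul_nonneg h1.le this]
    · have := mul_self_pos.2 hi
      have h1 := mul_pos (hr i) this
      linarith [mul_assoc (r i) (m i ⬝ᵥ x) (m i ⬝ᵥ x)]

theorem wa_st : WaStatement := by
  intro n k m r hm hr
  have hP := RR_posDef m r hm hr
  have hdet : IsUnit (RR m r).det := (Ne.isUnit hP.det_pos.ne')
  have hRb : ∀ j, RR m r *ᵥ bb m r j = m j := by
    intro j
    unfold bb
    rw [Matrix.mulVec_mulVec, Matrix.mul_nonsing_inv _ hdet, Matrix.one_mulVec]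
  -- the basic identity
  have key : ∀ (j : Fin n) (x : Fin k → ℝ), bb m r j ⬝ᵥ (RR m r *ᵥ x) = m j ⬝ᵥ x := by
    intro j x
    rw [dot_RR]
    have h1 := dot_RR m r (bb m r j) x
    rw [hRb, dotProduct_comm] at h1
    rw [h1]
    refine Finset.sum_congr rfl fun i _ => ?_
    ring
  have symm : ∀ i j, be m r i j = be m r j i := by
    intro i j
    unfold be
    have h1 := key i (bb m r j)
    have h2 := key j (bb m r i)
    rw [hRb] at h1 h2
    rw [← h1, dotProduct_comm]
  have repr : ∀ i (x : Fin k → ℝ), ∑ j, be m r i j * r j * (m j ⬝ᵥ x) = m i ⬝ᵥ x := by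
    intro i x
    rw [← key i x, dot_RR]
    refine Finset.sum_congr rfl fun j _ => ?_
    rw [symm i j]
    unfold be
    ring
  have proj : ∀ i l, ∑ j, be m r i j * r j * be m r j l = be m r i l := by
    intro i l
    exact repr i (bb m r l)
  have nonneg : ∀ i, 0 ≤ be m r i i := by
    intro i
    rw [← proj i i]
    refine Finset.sum_nonneg fun j _ => ?_
    rw [symm j i]
    have := mul_nonneg (hr j).le (mul_self_nonneg (be m r i j))
    linarith [mul_right_comm (be m r i j) (r j) (be m r i j)]
  have hres : ∀ a b, ∑ i, r i * bb m r i a * m i b = if a = b then 1 else 0 := by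
    intro a b
    have h1 : ((RR m r)⁻¹ * RR m r) a b = (1 : Matrix (Fin k) (Fin k) ℝ) a b := by
      rw [Matrix.nonsing_inv_mul _ hdet]
    rw [Matrix.one_apply] at h1
    have hR : ∀ c, RR m r c b = ∑ i, r i * (m i c * m i b) := by
      intro c
      unfold RR
      simp only [Matrix.sum_apply, Matrix.smul_apply, vecMulVec_apply, smul_eq_mul]
    rw [← h1, Matrix.mul_apply]
    simp only [hR]
    unfold bb
    simp only [Matrix.mulVec, dotProduct, Finset.mul_sum, Finset.sum_mul]
    rw [Finset.sum_comm]
    refine Finset.sum_congr rfl fun c _ => Finset.sum_congr rfl fun i _ => ?_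
    ring
  refine ⟨hP, symm, proj, repr, ?_, hres, ?_, nonneg, ?_, ?_⟩
  · intro a b
    have h1 : ∀ c, ∑ i, r i * bb m r i a * m i c = (1 : Matrix (Fin k) (Fin k) ℝ) a c := by
      intro c
      rw [hres a c, Matrix.one_apply]
    have h2 : (RR m r)⁻¹ a b = ∑ c, (1 : Matrix (Fin k) (Fin k) ℝ) a c * (RR m r)⁻¹ c b := by
      rw [← Matrix.mul_apply, Matrix.one_mul]
    rw [h2]
    simp only [← h1, Finset.sum_mul]
    rw [Finset.sum_comm]
    refine Finset.sum_congr rfl fun i _ => ?_
    have h3 : bb m r i b = ∑ c, m i c * (RR m r)⁻¹ c b := by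
      have h4 : ∀ c, (RR m r)⁻¹ c b = (RR m r)⁻¹ b c := by
        intro c
        have h5 := hP.isHermitian.inv
        have h6 := congrFun (congrFun h5 c) b
        simp only [conjTranspose_apply, star_trivial] at h6
        exact h6.symm
      unfold bb
      simp only [Matrix.mulVec, dotProduct]
      refine Finset.sum_congr rfl fun c _ => ?_
      rw [h4 c]
      ring
    rw [h3, Finset.mul_sum]
    refine Finset.sum_congr rfl fun c _ => ?_
    ring
  · intro i a
    have h1 : ∑ j, r j * be m r i j * bb m r j a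
        = ∑ j, ∑ b, r j * bb m r j a * m j b * bb m r i b := by
      refine Finset.sum_congr rfl fun j _ => ?_
      rw [symm i j]
      unfold be
      simp only [dotProduct, Finset.mul_sum, Finset.sum_mul]
      refine Finset.sum_congr rfl fun b _ => ?_
      ring
    rw [h1, Finset.sum_comm]
    simp only [← Finset.sum_mul, hres]
    simp
  · intro i
    by_cases h0 : be m r i i = 0
    · rw [h0]; simp
    · have hpos : 0 < be m r i i := lt_of_le_of_ne (nonneg i) (Ne.symm h0)
      have h1 : r i * (be m r i i * be m r i i) ≤ be m r i i := by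
        have h2 : be m r i i * r i * be m r i i ≤ ∑ j, be m r i j * r j * be m r j i := by
          refine Finset.single_le_sum (f := fun j => be m r i j * r j * be m r j i)
            (fun j _ => ?_) (Finset.mem_univ i)
          show 0 ≤ be m r i j * r j * be m r j i
          rw [symm j i]
          have := mul_nonneg (hr j).le (mul_self_nonneg (be m r i j))
          linarith [mul_right_comm (be m r i j) (r j) (be m r i j)]
        rw [proj i i] at h2
        linarith [mul_right_comm (be m r i i) (r i) (be m r i i)]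
      have h3 : (r i * be m r i i) * be m r i i ≤ 1 * be m r i i := by linarith
      exact le_of_mul_le_mul_right h3 hpos
  · intro i j
    have hq : ∀ s t : ℝ, 0 ≤ s ^ 2 * be m r i i + 2 * (s * t) * be m r i j
        + t ^ 2 * be m r j j := by
      intro s t
      have h1 : s ^ 2 * be m r i i + 2 * (s * t) * be m r i j + t ^ 2 * be m r j j
          = ∑ l, r l * (s * be m r i l + t * be m r j l) ^ 2 := by
        have e1 := proj i i
        have e2 := proj i j
        have e3 := proj j j
        rw [← e1, ← e2, ← e3]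
        simp only [Finset.mul_sum]
        rw [← Finset.sum_add_distrib, ← Finset.sum_add_distrib]
        refine Finset.sum_congr rfl fun l _ => ?_
        rw [symm l i, symm l j]
        ring
      rw [h1]
      exact Finset.sum_nonneg fun l _ => mul_nonneg (hr l).le (sq_nonneg _)
    have h1 := hq (be m r i j) (-(be m r i i))
    have hi := nonneg i
    have hj := nonneg j
    by_cases h0 : be m r i i = 0
    · rw [h0]
      have h2 := hq (be m r j j + 1) (-(be m r i j))
      rw [h0] at h2
      nlinarith [sq_nonneg (be m r i j)]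
    · have hpos : 0 < be m r i i := lt_of_le_of_ne hi (Ne.symm h0)
      have h3 : be m r i j ^ 2 * be m r i i ≤ (be m r i i * be m r j j) * be m r i i := by
        nlinarith
      exact le_of_mul_le_mul_right h3 hpos

end Pool.Agent.Lib.MP_fa837f_gt.P2.H57
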